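import Pool.Agent.Lib.TWJ2.Tr

/-!
# TANK W, near subfields, NS3: one level captures a finite set

* `NSh v C y δ`: there are levels of arbitrarily big degree whose variation
  `v Q(y) - (Gauss value of Q at the start of the level)` is `≥ δ`;
* `ns3`: then for every finite set `S` of elements of the closure of `C(y)` there are a frame `R` and
  `X` in `C(y)`, `R.K(X)` and `C(y)` have the same henselization, `v X ≥ δ`, such that every `f ∈ S`
  is a polynomial in `X` over `R.K` with coefficients of value `≥ v f - ε`, up to an error of large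
  value.
-/

set_option autoImplicit false

open Polynomial

namespace Pool.Agent.TWNS

open Pool.Agent.H15JM (RVal)
open Pool.Agent.LU1 (adj)
open Pool.Agent.D2 (Ctx0)
open Pool.Agent.D2P (hen clI mem_clI)
open Pool.Agent.TW
open Pool.Agent.TWM (PI GB Gt)
open Pool.Agent.TWJ
open Pool.Agent.TWJ2

universe u

variable {k Ω : Type u} [Field k] [Field Ω] [Algebra k Ω] {v : RVal Ω}

/-- Levels of arbitrarily big degree with variation `≥ δ`. -/
def NSh (v : RVal Ω) (C : IntermediateField k Ω) (y : Ω) (δ : ℝ) : Prop :=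
  ∀ n : ℕ, ∃ (η : Ω) (ρ ρ' : ℝ), n < (minpoly C η).natDegree ∧ IsMin v C y η ρ ∧ ρ < ρ' ∧
    ρ' ≤ v (y - η) ∧ ∀ b γ : ℝ, ρ < b → b < ρ' → IsGV v C η b γ (minpoly C η) →
      δ ≤ v (aeval y (minpoly C η)) - γ

/-- A quotient of polynomials of degree smaller than the degree of the centre is regular, with its
value as Gauss value. -/
theorem reg_of_lt {F : IntermediateField k Ω} {z η : Ω} {ρ b₁ b : ℝ} (hc : Cen v F z η ρ b)
    (hρ : ρ ≤ b₁) (hb : b₁ ≤ b) (hb₁ : b₁ < v (z - η)) {A B : F[X]} (hA : A ≠ 0) (hB : B ≠ 0)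
    (hAn : A.natDegree < (minpoly F η).natDegree) (hBn : B.natDegree < (minpoly F η).natDegree) :
    Reg v F z η b₁ b (v (aeval z A / aeval z B)) (aeval z A / aeval z B) := by
  have h1 : RB v F η b₁ A := by
    refine ⟨(hc.tb A hA hAn).1, fun j => ((hc.tb A hA hAn).2 j).mono ?_⟩
    have : (j : ℝ) * ρ ≤ j * b₁ := mul_le_mul_of_nonneg_left hρ (Nat.cast_nonneg j)
    linarith
  have h2 : RB v F η b₁ B := by
    refine ⟨(hc.tb B hB hBn).1, fun j => ((hc.tb B hB hBn).2 j).mono ?_⟩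
    have : (j : ℝ) * ρ ≤ j * b₁ := mul_le_mul_of_nonneg_left hρ (Nat.cast_nonneg j)
    linarith
  have h3 := h1.near (x := z) fun _ => hb₁
  have h4 := h2.near (x := z) fun _ => hb₁
  refine ⟨A, B, h2, ?_, h4.1, rfl⟩
  rw [v.map_div h3.1 h4.1, h3.2.1, h4.2.1]
  have h5 : v (aeval η A) - v (aeval η B) + v (aeval η B) = v (aeval η A) := by ring
  rw [h5]
  exact RB.gn hb h1

/-- **NS3.** One level captures a finite set. -/
theorem ns3 [IsAlgClosed Ω] [IsAlgClosed k] (p : ℕ) [hp : Fact p.Prime] [CharP k p] [CharP Ω p]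
    {r D : ℕ} {C : IntermediateField k Ω} {y : Ω} {δ : ℝ}
    (h : Ctx k v r) (hF : C.FG) (hfull : Full v C) (hBD : BD p v C)
    (htr : Algebra.trdeg k C = (r + D : ℕ))
    (hLU : ∀ E : IntermediateField k Ω, E.FG → Full v E →
      Algebra.trdeg k E = (r + D : ℕ) → BD p v E → LU p v r E)
    (hd : Dns v C) (hy : Transcendental C y) (hNS : NSh v C y δ) {S : Set Ω} (hSf : S.Finite)
    (hS : ∀ f ∈ S, f ∈ clI v (adj C y)) {ε : ℝ} (hε : 0 < ε) (N : ℝ) :
    ∃ (R : Fr k v r D) (X : Ω), (∀ i, R.s i ∈ adj C y) ∧ X ∈ adj C y ∧ X ≠ 0 ∧ 0 < v X ∧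
      δ ≤ v X ∧ BD p v R.K ∧ Dns v R.K ∧ Transcendental R.K X ∧
      hen v (adj R.K X) = hen v (adj C y) ∧
      ∀ f ∈ S, ∃ f' ∈ PI R.K, (∀ i, v.Ge (v f - ε) (f'.coeff i)) ∧ v.Ge N (f - f'.eval X) := by
  classical
  -- approximation by fractions
  have hex : ∀ f : Ω, ∃ A B : C[X], f ∈ S → f ≠ 0 → A ≠ 0 ∧ B ≠ 0 ∧
      v (aeval y A / aeval y B) = v f ∧ v.Ge N (f - aeval y A / aeval y B) := by
    intro f
    by_cases hf : f ∈ S ∧ f ≠ 0
    · obtain ⟨hfS, hf0⟩ := hf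
      obtain ⟨g, hg, h1⟩ := mem_clI.1 (hS f hfS) (max N (v f + 1))
      have h2 : v.Ge (v f + 1) (g - f) := by
        have h3 := (h1.mono (le_max_right N (v f + 1))).neg
        rwa [neg_sub] at h3
      obtain ⟨hg0, hgv⟩ := E5Aux.of_near one_pos hf0 h2
      obtain ⟨A, B, hA, hB, -, -, rfl⟩ := Est.exists_frac hg hg0
      exact ⟨A, B, fun _ _ => ⟨hA, hB, hgv, h1.mono (le_max_left _ _)⟩⟩
    · exact ⟨1, 1, fun h1 h2 => absurd ⟨h1, h2⟩ hf⟩
  choose A B hAB using hex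
  set n : ℕ := hSf.toFinset.sup fun f => max (A f).natDegree (B f).natDegree with hn
  have hnle : ∀ f ∈ S, (A f).natDegree ≤ n ∧ (B f).natDegree ≤ n := by
    intro f hf
    have h1 := Finset.le_sup (f := fun f => max (A f).natDegree (B f).natDegree)
      (hSf.mem_toFinset.2 hf)
    exact ⟨(le_max_left _ _).trans h1, (le_max_right _ _).trans h1⟩
  obtain ⟨η, ρ, ρ', hdeg, hη, hρ, hρ', hvar⟩ := hNS n
  obtain ⟨b, b₁, ε', hb1, hb2, ⟨d⟩⟩ := exists_level0 p h hF hfull hBD htr hLU hd hy hη hρ hρ'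
  obtain ⟨h1, h2, h3, h4, h5, h6, h7, h8⟩ := level0_facts h hd d
  have hint : IsIntegral C η := hη.sep.isIntegral
  have hyη : y ≠ η := by
    intro h0
    refine hy ?_
    rw [h0]
    exact hint.isAlgebraic
  have hQ0 : aeval y (minpoly C η) ≠ 0 := fun h0 => hy ⟨minpoly C η, minpoly.ne_zero hint, h0⟩
  have hρb₁ : ρ ≤ b₁ := by
    have h9 := d.lt₁
    have h10 : (0 : ℝ) ≤ p * ε' := mul_nonneg (Nat.cast_nonneg p) d.ε_nonneg
    linarith
  have hb₁η : b₁ < v (y - η) := d.lt₂.trans (hb2.trans_le hρ')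
  have hbη : b < v (y - η) := hb2.trans_le hρ'
  refine ⟨d.S', d.X, h1, h2, h3, h4, ?_, h5, h6, h7, h8, fun f hf => ?_⟩
  · rw [SD.X, v.map_div hQ0 d.q_ne]
    exact hvar b _ hb1 hb2 d.q_val
  by_cases hf0 : f = 0
  · refine ⟨0, zero_mem _, fun i => ?_, ?_⟩
    · rw [coeff_zero]
      exact RVal.Ge.zero
    · rw [hf0, eval_zero, sub_zero]
      exact RVal.Ge.zero
  · obtain ⟨hA, hB, hv, hge⟩ := hAB f hf hf0
    obtain ⟨w, hw, hw0, hw1, hw2⟩ := dns_K h hd d (v f - ε) (v f) (by linarith)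
    have hreg := reg_of_lt d.cen hρb₁ d.lt₂.le hb₁η hA hB ((hnle f hf).1.trans_lt hdeg)
      ((hnle f hf).2.trans_lt hdeg)
    rw [hv] at hreg
    obtain ⟨f', hf', hf'w, hrep⟩ := exists_rep h d hw hw0 (Reg.mono hw2.le hreg) N
    refine ⟨f', hf', fun i => (hf'w i).mono hw1.le, ?_⟩
    have h9 := hge.add (Reg.ge hyη hbη d.lt₂ hrep)
    rwa [sub_add_sub_cancel] at h9

end Pool.Agent.TWNS
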