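import Pool.Agent.Lib.TWJ.Defs
import Pool.Agent.Lib.TW.EDefs

/-!
# TANK W: near subfields

`NS v k r D L dl` (gain `dl`): for every finite subset of `L` there is a rational frame `(R, X)` in
`L` (`R.K(X)` and `L` have the same closure) in which the given elements are polynomials in `X`
whose terms are not larger than the element at a radius `rho`, and `X` is nearer to `0` than `rho` by
`dl`: all the terms of positive degree are smaller than the element by `dl`.

The frame depends on the finite set and on the loss `eps`, but not on the precision `N`.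
-/

set_option autoImplicit false

open Polynomial

namespace Pool.Agent.TWNS

open Pool.Agent.H15JM (RVal)
open Pool.Agent.LU1 (adj)
open Pool.Agent.D2P (clI)
open Pool.Agent.TW (Fr Dns)
open Pool.Agent.TWM (PI)

universe u

variable {Ω : Type u} [Field Ω]

/-- **Near subfields** with gain `dl`. -/
def NS (v : RVal Ω) (k : Type u) [Field k] [Algebra k Ω] (r D : ℕ) (L : IntermediateField k Ω)
    (dl : ℝ) : Prop :=
  ∀ S : Finset Ω, (∀ f ∈ S, f ∈ L) → ∀ eps : ℝ, 0 < eps →
    ∃ (R : Fr k v r D) (X : Ω) (rho : ℝ), (∀ i, R.s i ∈ L) ∧ X ∈ L ∧ X ≠ 0 ∧ Dns v R.K ∧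
      clI v (adj R.K X) = clI v L ∧ rho + dl ≤ v X ∧
      ∀ f ∈ S, ∀ N : ℝ, ∃ B ∈ PI R.K, v.Ge N (f - B.eval X) ∧
        ∀ l : ℕ, v.Ge (v f - eps - l * rho) (B.coeff l)

theorem NS.mono {v : RVal Ω} {k : Type u} [Field k] [Algebra k Ω] {r D : ℕ}
    {L : IntermediateField k Ω} {dl dl' : ℝ} (h : NS v k r D L dl) (hd : dl' ≤ dl) :
    NS v k r D L dl' := by
  intro S hS eps heps
  obtain ⟨R, X, rho, h1, h2, h3, h4, h5, h6, h7⟩ := h S hS eps heps
  exact ⟨R, X, rho, h1, h2, h3, h4, h5, by linarith, h7⟩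

end Pool.Agent.TWNS
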