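import Pool.Agent.Lib.TWNS.NS3
import Pool.Agent.Lib.TWM.Ent1

/-!
# TANK W, near subfields of a closed field

`NSc v r D K δ`: every finite set of elements of the closed field `K` consists, up to an error of
large value, of polynomials over `R.K` in some `X` with `v X ≥ δ`, without loss for the values of the
coefficients, where `R.K(X)` is dense in `K`.
* `NSc.get`: the coefficients of the approximation of `0`;
* `NSc.of_levels`: from the levels of `C(y)`.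
-/

set_option autoImplicit false

open Polynomial

namespace Pool.Agent.TWNS

open Pool.Agent.H15JM (RVal)
open Pool.Agent.LU1 (adj)
open Pool.Agent.D2 (Ctx0)
open Pool.Agent.D2P (hen clI mem_clI)
open Pool.Agent.TW
open Pool.Agent.TWM (PI GB Gt)
open Pool.Agent.TWJ
open Pool.Agent.TWJ2

universe u

variable {k Ω : Type u} [Field k] [Field Ω] [Algebra k Ω] {v : RVal Ω}

/-- Near subfields. -/
def NSc (v : RVal Ω) (r D : ℕ) (K : IntermediateField k Ω) (δ : ℝ) : Prop :=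
  ∀ S : Set Ω, S.Finite → (∀ f ∈ S, f ∈ K) → ∀ ε : ℝ, 0 < ε → ∀ N : ℝ,
    ∃ (R : Fr k v r D) (X : Ω), X ≠ 0 ∧ Transcendental R.K X ∧ Dns v R.K ∧
      clI v (adj R.K X) = K ∧ δ ≤ v X ∧
      ∀ f ∈ S, ∃ B ∈ PI R.K, (∀ i, v.Ge (v f - ε) (B.coeff i)) ∧ v.Ge N (f - B.eval X)

theorem NSc.mono {r D : ℕ} {K : IntermediateField k Ω} {δ δ' : ℝ} (h : NSc v r D K δ)
    (hδ : δ' ≤ δ) : NSc v r D K δ' := by
  intro S hS hSK ε hε N
  obtain ⟨R, X, h1, h2, h3, h4, h5, h6⟩ := h S hS hSK ε hε N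
  exact ⟨R, X, h1, h2, h3, h4, hδ.trans h5, h6⟩

theorem NSc.get {r D : ℕ} {K : IntermediateField k Ω} {δ : ℝ} (h : NSc v r D K δ) {S : Set Ω}
    (hS : S.Finite) (hSK : ∀ f ∈ S, f ∈ K) {ε : ℝ} (hε : 0 < ε) (N : ℝ) :
    ∃ (R : Fr k v r D) (X : Ω), X ≠ 0 ∧ Transcendental R.K X ∧ Dns v R.K ∧
      clI v (adj R.K X) = K ∧ δ ≤ v X ∧
      ∀ f ∈ S, ∃ B ∈ PI R.K, (∀ lam, v.Ge lam f → ∀ i, v.Ge (lam - ε) (B.coeff i)) ∧
        v.Ge N (f - B.eval X) := by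
  obtain ⟨R, X, h1, h2, h3, h4, h5, h6⟩ := h S hS hSK ε hε N
  refine ⟨R, X, h1, h2, h3, h4, h5, fun f hf => ?_⟩
  by_cases hf0 : f = 0
  · refine ⟨0, zero_mem _, fun lam _ i => ?_, ?_⟩
    · rw [coeff_zero]
      exact RVal.Ge.zero
    · rw [hf0, eval_zero, sub_zero]
      exact RVal.Ge.zero
  · obtain ⟨B, hB, hB1, hB2⟩ := h6 f hf
    refine ⟨B, hB, fun lam hlam i => (hB1 i).mono ?_, hB2⟩
    have := hlam hf0
    linarith

/-- Near subfields from the levels. -/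
theorem NSc.of_levels [IsAlgClosed Ω] [IsAlgClosed k] (p : ℕ) [hp : Fact p.Prime] [CharP k p]
    [CharP Ω p] {r D : ℕ} {C : IntermediateField k Ω} {y : Ω} {δ : ℝ}
    (h : Ctx k v r) (hF : C.FG) (hfull : Full v C) (hBD : BD p v C)
    (htr : Algebra.trdeg k C = (r + D : ℕ))
    (hLU : ∀ E : IntermediateField k Ω, E.FG → Full v E →
      Algebra.trdeg k E = (r + D : ℕ) → BD p v E → LU p v r E)
    (hd : Dns v C) (hy : Transcendental C y) (hNS : NSh v C y δ) :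
    NSc v r D (clI v (adj C y)) δ := by
  intro S hSf hS ε hε N
  obtain ⟨R, X, -, -, h1, -, h2, -, h3, h4, h5, h6⟩ :=
    ns3 p h hF hfull hBD htr hLU hd hy hNS hSf hS hε N
  refine ⟨R, X, h1, h4, h3, ?_, h2, fun f hf => ?_⟩
  · rw [← TWM.clI_hen, h5, TWM.clI_hen]
  · obtain ⟨B, hB, hB1, hB2⟩ := h6 f hf
    exact ⟨B, hB, hB1, hB2⟩

end Pool.Agent.TWNS
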