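import Pool.Agent.Lib.TWNS.NC
import Pool.Agent.Lib.TWJ2.SwapSt

/-!
# TANK W, near subfields, NS2: one more variable of transcendental type

`NSc.tl`: near subfields of `K` give near subfields of the closure of `K(z)`, with the same `δ`, if
`z` is of transcendental type over `K`: expand at `θ` in `K` near `z`, the powers of `z - θ` become
constants.
-/

set_option autoImplicit false

open Polynomial

namespace Pool.Agent.TWNS

open Pool.Agent.H15JM (RVal)
open Pool.Agent.LU1 (adj)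
open Pool.Agent.D2 (Ctx0)
open Pool.Agent.D2P (hen clI mem_clI mem_adj_self adj_le)
open Pool.Agent.TW
open Pool.Agent.TWM (PI GB TL)
open Pool.Agent.TWJ
open Pool.Agent.TWJ2

universe u

variable {k Ω : Type u} [Field k] [Field Ω] [Algebra k Ω] {v : RVal Ω}

/-- Two generators, in the other order. -/
theorem adj_adj_comm {E : IntermediateField k Ω} {x y : Ω} :
    adj (adj E x) y = adj (adj E y) x := by
  have key : ∀ a b : Ω, adj (adj E a) b ≤ adj (adj E b) a := fun a b =>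
    adj_le (adj_le (fun c hc => (mem_adj_self _ a).2 ((mem_adj_self E b).2 hc))
      (mem_adj_self _ a).1) ((mem_adj_self _ a).2 (mem_adj_self E b).1)
  exact le_antisymm (key x y) (key y x)

theorem adj_sub {E : IntermediateField k Ω} {z θ : Ω} (hθ : θ ∈ E) : adj E (z - θ) = adj E z := by
  refine le_antisymm (adj_le (fun a ha => (mem_adj_self E z).2 ha)
    (sub_mem (mem_adj_self E z).1 ((mem_adj_self E z).2 hθ)))
    (adj_le (fun a ha => (mem_adj_self E _).2 ha) ?_)
  have h1 := add_mem (mem_adj_self E (z - θ)).1 ((mem_adj_self E (z - θ)).2 hθ)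
  rwa [sub_add_cancel] at h1

/-- The Gauss value just before the radius. -/
theorem gb_taylor [IsAlgClosed Ω] {A : IntermediateField k Ω} {z : Ω} {s : ℝ} (h : TL v A z s)
    {f : Polynomial Ω} (hf : f ∈ PI A) {lam : ℝ} (hlam : v.Ge lam (f.eval z)) {n : ℕ}
    (hn : f.natDegree ≤ n) {η : ℝ} (hη : 0 ≤ η) {θ : Ω} (hθ : v.Ge (s - η) (z - θ)) :
    GB v (s - η) (lam - n * η) (taylor θ f) := by
  by_cases h0 : f = 0
  · rw [h0, map_zero]
    exact TWM.GB.zero
  have hz0 : f.eval z ≠ 0 := h.eval_ne (TWM.PI_mono (TWM.le_algc A) hf) h0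
  have hv := hlam hz0
  refine TWM.GB.centre (z := z) (TWM.ge_sub_comm hθ) fun l => ?_
  by_cases hl : n < l
  · rw [coeff_eq_zero_of_natDegree_lt (by rw [natDegree_taylor]; omega)]
    exact RVal.Ge.zero
  · have h1 : (l : ℝ) ≤ n := by exact_mod_cast not_lt.1 hl
    refine (TWM.TL.nonstrict h hf l).mono ?_
    have h2 : (l : ℝ) * η ≤ n * η := mul_le_mul_of_nonneg_right h1 hη
    rw [mul_sub]
    linarith

/-- **NS2.** -/
theorem NSc.tl [IsAlgClosed Ω] {r D : ℕ} (h : Ctx k v r) {K : IntermediateField k Ω} {δ : ℝ}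
    (hns : NSc v r D K δ) {z : Ω} {s : ℝ} (hz : TL v K z s) :
    NSc v r (D + 1) (clI v (adj K z)) δ := by
  classical
  intro S hSf hS ε hε N
  -- approximation by polynomials
  have hex : ∀ f : Ω, ∃ P ∈ PI K, f ∈ S → v.Ge (max N (v f)) (f - P.eval z) := by
    intro f
    by_cases hf : f ∈ S
    · obtain ⟨P, hP, h1⟩ := hz.dense (hS f hf) (max N (v f))
      exact ⟨P, hP, fun _ => h1⟩
    · exact ⟨0, zero_mem _, fun h1 => absurd h1 hf⟩
  choose P hPI hPn using hex
  set n : ℕ := hSf.toFinset.sup fun f => (P f).natDegree with hn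
  have hnle : ∀ f ∈ S, (P f).natDegree ≤ n := fun f hf =>
    Finset.le_sup (f := fun f => (P f).natDegree) (hSf.mem_toFinset.2 hf)
  -- the centre
  set η : ℝ := ε / (2 * (n + 1)) with hη
  have hn0 : (0 : ℝ) ≤ n := Nat.cast_nonneg n
  have hη0 : 0 < η := by positivity
  have hnη : n * η ≤ ε / 2 := by
    have h1 : (n + 1 : ℝ) * η = ε / 2 := by
      rw [hη]
      field_simp
    nlinarith
  obtain ⟨θ, hθ, hθz⟩ := hz.lim η hη0
  set ζ := z - θ with hζ
  have hζ0 : ζ ≠ 0 := sub_ne_zero.2 (hz.far θ (isAlgebraic_algebraMap (⟨θ, hθ⟩ : K))).1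
  have hζv : s - η ≤ v ζ := hθz hζ0
  -- the finite set
  set T : Set Ω := (fun fl : Ω × ℕ => (taylor θ (P fl.1)).coeff fl.2) ''
    (S ×ˢ (Finset.range (n + 1) : Set ℕ)) with hT
  have hTf : T.Finite := (hSf.prod (Finset.finite_toSet _)).image _
  have hTK : ∀ g ∈ T, g ∈ K := by
    rintro _ ⟨⟨f, l⟩, -, rfl⟩
    exact TWM.taylor_mem_PI (hPI f) hθ l
  obtain ⟨R, X, hX0, hX, hdn, hcl, hδ, hB⟩ := hns.get hTf hTK (half_pos hε) (N + n * |v ζ|)
  have hRX : adj R.K X ≤ K := by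
    rw [← hcl]
    exact TWM.le_clI _
  have hRK : R.K ≤ K := fun a ha => hRX ((mem_adj_self R.K X).2 ha)
  -- transcendence
  have hζtr : Transcendental (adj R.K X) ζ := by
    intro h1
    have h2 : IsAlgebraic K ζ := D2P.isAlgebraic_mono hRX h1
    have h3 : IsAlgebraic K z := by
      have h4 : z = ζ + θ := by rw [hζ]; ring
      rw [h4]
      exact h2.add (isAlgebraic_algebraMap (⟨θ, hθ⟩ : K))
    exact (hz.far z h3).1 rfl
  have hXtr : Transcendental (adj R.K ζ) X := tr_swap hX hζtr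
  obtain ⟨m, hm, hm0, hmv⟩ := TW.E10.exists_big h R (1 - v ζ)
  have hmζ0 : m * ζ ≠ 0 := mul_ne_zero hm0 hζ0
  have hmζv : 0 < v (m * ζ) := by
    rw [v.map_mul hm0 hζ0]
    linarith
  have hadj : adj R.K (m * ζ) = adj R.K ζ := adj_mul hm hm0
  have hmζtr : Transcendental R.K (m * ζ) := by
    intro h1
    have h2 : IsAlgebraic R.K ζ := by
      have h3 : ζ = m⁻¹ * (m * ζ) := by field_simp
      rw [h3]
      exact (isAlgebraic_algebraMap (R := R.K) (⟨_, inv_mem hm⟩ : R.K)).mul h1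
    exact hζtr (D2P.isAlgebraic_mono (fun a ha => (mem_adj_self R.K X).2 ha) h2)
  set R' := TW.E10.snocFr R hmζ0 hmζv hmζtr with hR'
  have hK' : R'.K = adj R.K ζ := by rw [hR', snoc_K, hadj]
  have hRR' : R.K ≤ R'.K := by
    rw [hK']
    exact fun a ha => (mem_adj_self R.K ζ).2 ha
  have hζR' : ζ ∈ R'.K := by
    rw [hK']
    exact (mem_adj_self R.K ζ).1
  refine ⟨R', X, hX0, by rw [hK']; exact hXtr, fun a b hab => ?_, ?_, hδ, fun f hf => ?_⟩
  · obtain ⟨c, hc, h1⟩ := hdn a b hab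
    exact ⟨c, hRR' hc, h1⟩
  · rw [hK', adj_adj_comm, ← TWM.clI_adj_clI, hcl, hζ, TWM.cadj, adj_sub hθ]
  -- the series
  have hBl : ∀ l ∈ Finset.range (n + 1), ∃ B ∈ PI R.K,
      (∀ lam, v.Ge lam ((taylor θ (P f)).coeff l) → ∀ i, v.Ge (lam - ε / 2) (B.coeff i)) ∧
      v.Ge (N + n * |v ζ|) ((taylor θ (P f)).coeff l - B.eval X) := fun l hl =>
    hB _ ⟨(f, l), ⟨hf, hl⟩, rfl⟩
  choose! B hBI hBc hBn using hBl
  by_cases hf0 : f = 0
  · refine ⟨0, zero_mem _, fun i => ?_, ?_⟩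
    · rw [coeff_zero]
      exact RVal.Ge.zero
    · rw [hf0, eval_zero, sub_zero]
      exact RVal.Ge.zero
  have hPf := hPn f hf
  have hfP : v.Ge (v f) ((P f).eval z) := by
    have h1 := (TWM.ge_sub_comm (hPf.mono (le_max_right _ _))).add
      (show v.Ge (v f) f from fun _ => le_rfl)
    rwa [sub_add_cancel] at h1
  refine ⟨∑ l ∈ Finset.range (n + 1), C (ζ ^ l) * B l, ?_, fun i => ?_, ?_⟩
  · refine sum_mem fun l hl => mul_mem ?_ (TWM.PI_mono hRR' (hBI l hl))
    exact TWM.C_mem_PI (pow_mem hζR' l)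
  · rw [finsetSum_coeff]
    refine RVal.Ge.sum _ _ fun l hl => ?_
    rw [coeff_C_mul]
    have h1 := gb_taylor hz (hPI f) hfP (hnle f hf) hη0.le hθz l
    have h2 := hBc l hl _ h1 i
    have h3 : v.Ge (l * v ζ) (ζ ^ l) := fun _ => by rw [v.map_pow hζ0]
    refine (h3.mul h2).mono ?_
    have h4 : (l : ℝ) * (s - η) ≤ l * v ζ := mul_le_mul_of_nonneg_left hζv (Nat.cast_nonneg l)
    linarith
  · have h1 : (P f).eval z = ∑ l ∈ Finset.range (n + 1), ζ ^ l * (taylor θ (P f)).coeff l := by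
      have h2 : (taylor θ (P f)).eval ζ = (P f).eval z := by
        rw [taylor_eval, hζ, sub_add_cancel]
      rw [← h2, eval_eq_sum_range' (n := n + 1)
        (by rw [natDegree_taylor]; exact Nat.lt_succ_of_le (hnle f hf))]
      exact Finset.sum_congr rfl fun l _ => mul_comm _ _
    have h2 : v.Ge N ((P f).eval z - (∑ l ∈ Finset.range (n + 1), C (ζ ^ l) * B l).eval X) := by
      rw [h1, eval_finsetSum, ← Finset.sum_sub_distrib]
      refine RVal.Ge.sum _ _ fun l hl => ?_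
      rw [eval_mul, eval_C, ← mul_sub]
      have h3 : v.Ge (l * v ζ) (ζ ^ l) := fun _ => by rw [v.map_pow hζ0]
      refine (h3.mul (hBn l hl)).mono ?_
      have h4 : (l : ℝ) ≤ n := by
        exact_mod_cast Nat.lt_succ_iff.1 (Finset.mem_range.1 hl)
      have h5 : (l : ℝ) * |v ζ| ≤ n * |v ζ| := mul_le_mul_of_nonneg_right h4 (abs_nonneg _)
      have h6 : -((l : ℝ) * |v ζ|) ≤ l * v ζ := by
        rw [← mul_neg]
        exact mul_le_mul_of_nonneg_left (neg_abs_le _) (Nat.cast_nonneg l)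
      linarith
    have h3 := (hPf.mono (le_max_left _ _)).add h2
    rwa [sub_add_sub_cancel] at h3

end Pool.Agent.TWNS
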